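import Pool.Agent.V7H95.Fin.Core
import Pool.Agent.V7H82.LR.Fin

/-!
# All relations between the Frobenius eigenvalues are elementary if the blocks are regular
-/

set_option autoImplicit false
set_option linter.unusedSectionVars false
set_option linter.unusedVariables false

namespace Pool.Agent.V7H95.Fin

open NumberField Module MulAction
open Pool.Agent.W495.TA Pool.Agent.TH117.BL Pool.Agent.TH117.PO Pool.Agent.N202.QR
  Pool.Agent.V7H82.LR Pool.Agent.V7H82.HT Pool.Agent.TH127.SC

variable {p : ℕ} [Fact p.Prime] {ν : PadicAlgCl p ≃+* ℂ} {Z : RedAV p ν}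

open Classical in
/-- The exponents of one eigenvalue. -/
noncomputable def sn (w : Emb Z) : Emb Z → ℕ := fun v => if v = w then 1 else 0

open Classical in
/-- The exponents of one eigenvalue. -/
noncomputable def sz (w : Emb Z) : Emb Z → ℤ := fun v => if v = w then 1 else 0

theorem sz_eq (w v : Emb Z) : sz w v = (sn w v : ℤ) := by
  unfold sz sn
  split_ifs <;> rfl

theorem single_sum (w : Emb Z) : ∑ v, sn w v = 1 := by
  classical
  unfold sn
  rw [Finset.sum_ite_eq' Finset.univ, if_pos (Finset.mem_univ _)]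

theorem single_prod (w : Emb Z) : ∏ v, eig Z v ^ sn w v = eig Z w := by
  classical
  unfold sn
  rw [Finset.prod_eq_single w]
  · rw [if_pos rfl, pow_one]
  · intro v _ hv
    rw [if_neg hv, pow_zero]
  · intro h
    exact absurd (Finset.mem_univ _) h

/-- The group generated by the elementary relations. -/
abbrev elm (Z : RedAV p ν) : AddSubgroup (Emb Z → ℤ) :=
  AddSubgroup.closure {d : Emb Z → ℤ | ∃ n : Emb Z → ℕ, IsRel Z n ∧ IsElementary Z n ∧
    ∀ w, d w = n w}

theorem real_mem {w : Emb Z} (h : bar (eig Z w) = eig Z w) : sz w ∈ elm Z := by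
  classical
  refine AddSubgroup.subset_closure ⟨sn w, ⟨1, one_pos, ?_⟩, Or.inl ?_, fun v => sz_eq w v⟩
  · rw [single_prod, single_sum]
    have h1 := mul_bar (Z := Z) ⟨w, rfl⟩
    rw [h] at h1
    rw [mul_one, mul_one, pow_one, sq, h1]
  · rw [single_sum]
    norm_num

theorem pair_mem {w w' : Emb Z} (h : eig Z w * eig Z w' = (p : ℂ) ^ Z.a) :
    sz w + sz w' ∈ elm Z := by
  classical
  refine AddSubgroup.subset_closure ⟨sn w + sn w', ⟨1, one_pos, ?_⟩,
    Or.inl ?_, fun v => ?_⟩
  · simp only [Pi.add_apply, pow_add, Finset.prod_mul_distrib, Finset.sum_add_distrib]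
    rw [single_prod, single_prod, single_sum, single_sum, h]
    norm_num
  · simp only [Pi.add_apply, Finset.sum_add_distrib]
    rw [single_sum, single_sum]
  · rw [Pi.add_apply, Pi.add_apply, Nat.cast_add, sz_eq, sz_eq]

/-- Exponents with symmetric multiplicities. -/
theorem mem_of_mult (n : Emb Z → ℕ) (h : ∀ w, n w ≠ 0 → bar (eig Z w) = eig Z w ∨
    mult (fun w => (n w : ℤ)) (eig Z w) = mult (fun w => (n w : ℤ)) (bar (eig Z w))) :
    (fun w => (n w : ℤ)) ∈ elm Z := by
  classical
  let q := QuotientAddGroup.mk' (elm Z)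
  let G : Emb Z → (Emb Z → ℤ) ⧸ elm Z := fun w => q (sz w)
  have hpair : ∀ w w', eig Z w * eig Z w' = (p : ℂ) ^ Z.a → G w + G w' = 0 := by
    intro w w' h
    change q _ + q _ = 0
    rw [← map_add]
    exact (QuotientAddGroup.eq_zero_iff _).2 (pair_mem h)
  have hreal : ∀ w, bar (eig Z w) = eig Z w → G w = 0 := fun w h =>
    (QuotientAddGroup.eq_zero_iff _).2 (real_mem h)
  have hsame : ∀ w w', eig Z w = eig Z w' → G w = G w' := by
    intro w w' h
    have h1 := hpair w (conjE w) (eig_mul_conj w)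
    have h2 := hpair w' (conjE w) (by rw [← h]; exact eig_mul_conj w)
    exact add_right_cancel (h1.trans h2.symm)
  let g : ℂ → (Emb Z → ℤ) ⧸ elm Z := fun x => if hx : ∃ w, eig Z w = x then G hx.choose else 0
  have hg : ∀ w, g (eig Z w) = G w := by
    intro w
    have hx : ∃ v, eig Z v = eig Z w := ⟨w, rfl⟩
    change (if hx : ∃ v, eig Z v = eig Z w then G hx.choose else 0) = _
    rw [dif_pos hx]
    exact hsame _ _ hx.choose_spec
  rw [← QuotientAddGroup.eq_zero_iff]
  have h1 : (fun w => (n w : ℤ)) = ∑ w, (n w : ℤ) • (sz w : Emb Z → ℤ) := by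
    funext v
    rw [Finset.sum_apply, Finset.sum_eq_single v]
    · change (n v : ℤ) = (n v : ℤ) • (if v = v then (1 : ℤ) else 0)
      rw [if_pos rfl, smul_eq_mul, mul_one]
    · intro w _ hw
      change (n w : ℤ) • (if v = w then (1 : ℤ) else 0) = 0
      rw [if_neg (Ne.symm hw), smul_zero]
    · intro h
      exact absurd (Finset.mem_univ _) h
  change q (fun w => (n w : ℤ)) = 0
  rw [h1, map_sum]
  have h2 : ∀ w, q ((n w : ℤ) • (sz w : Emb Z → ℤ)) = (n w : ℤ) • g (eig Z w) := by
    intro w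
    rw [map_zsmul, hg]
  rw [Finset.sum_congr rfl fun w _ => h2 w, sum_mult (fun w => (n w : ℤ)) g]
  -- the involution
  set m : ℂ → ℤ := mult (fun w => (n w : ℤ)) with hm
  have hm0 : ∀ x, (∀ w, eig Z w = x → n w = 0) → m x = 0 := by
    intro x hx
    rw [hm]
    unfold mult
    refine Finset.sum_eq_zero fun w _ => ?_
    split_ifs with hw
    · have h3 := hx w hw
      change (n w : ℤ) = 0
      rw [h3]
      rfl
    · rfl
  have hgr : ∀ x ∈ eigs Z, bar x = x → g x = 0 := by
    intro x hx hr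
    obtain ⟨w, rfl⟩ := mem_eigs.1 hx
    rw [hg]
    exact hreal w hr
  have hgb : ∀ x ∈ eigs Z, g x + g (bar x) = 0 := by
    intro x hx
    obtain ⟨w, rfl⟩ := mem_eigs.1 hx
    rw [eig_bar, hg, hg]
    exact hpair w (conjE w) (eig_mul_conj w)
  refine Finset.sum_involution (fun x _ => bar x) ?_ ?_ ?_ ?_
  · intro x hx
    change m x • g x + m (bar x) • g (bar x) = 0
    by_cases hr : bar x = x
    · rw [hr, hgr x hx hr, smul_zero, add_zero]
    · have key : m x = m (bar x) := by
        by_cases h3 : ∃ w, eig Z w = x ∧ n w ≠ 0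
        · obtain ⟨w, rfl, hw⟩ := h3
          exact (h w hw).resolve_left hr
        · by_cases h4 : ∃ w, eig Z w = bar x ∧ n w ≠ 0
          · obtain ⟨w, hwx, hw⟩ := h4
            have h5 := h w hw
            rw [hwx, bar_bar] at h5
            exact (h5.resolve_left (Ne.symm hr)).symm
          · push Not at h3 h4
            rw [hm0 x h3, hm0 (bar x) h4]
      have h5 : m x • g x + m x • g (bar x) = m x • (g x + g (bar x)) := (zsmul_add _ _ _).symm
      rw [← key, h5, hgb x hx, zsmul_zero]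
  · intro x hx h3 h4
    apply h3
    rw [hgr x hx h4, smul_zero]
  · intro x hx
    exact mem_eigs.2 (isEig_bar (mem_eigs.1 hx))
  · intro x hx
    exact bar_bar x

attribute [local instance] Pool.Agent.V7H82.HT.embAct

/-- **The relations between the Frobenius eigenvalues are elementary** if the blocks are
regular. -/
theorem elementary_of_blocks (h : HasRegularBlocks Z) : HasElementaryRelations Z := by
  classical
  intro e he
  obtain ⟨W, hW, hWrel⟩ := exists_W Z
  obtain ⟨N, U, hN, hU⟩ := exists_weight Z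
  have hd : Rel (ℂ ≃+* ℂ) W (fun w => (e w : ℤ)) := (hWrel e).1 he
  have hG : ∀ (g : ℂ ≃+* ℂ) (y : Emb Z), g • conjE y = conjE (g • y) := act_conj
  refine mem_of_restrC (Γ := ℂ ≃+* ℂ) (cb := conjE) fun w => ?_
  let n : Emb Z → ℕ := fun x => if Link (ℂ ≃+* ℂ) conjE w x then e x else 0
  have hn : (fun x => (n x : ℤ)) = restrC (ℂ ≃+* ℂ) conjE w (fun x => (e x : ℤ)) := by
    funext x
    change ((if Link (ℂ ≃+* ℂ) conjE w x then e x else 0 : ℕ) : ℤ) =
      if Link (ℂ ≃+* ℂ) conjE w x then (e x : ℤ) else 0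
    split_ifs <;> rfl
  have hnR : IsRel Z n := by
    refine (hWrel n).2 ?_
    rw [hn]
    exact rel_restrC hG hW hd w
  rw [← hn]
  by_cases hs : IsSmallClass w
  · obtain ⟨S, hS, h1⟩ := hs
    refine AddSubgroup.subset_closure ⟨n, hnR, Or.inr (Or.inl ⟨S, hS, fun x hx => ?_⟩),
      fun x => rfl⟩
    refine h1 x ?_
    by_contra hcon
    exact hx (if_neg hcon)
  · refine mem_of_mult n fun x hx => ?_
    have hlink : IsLinked w x := by
      by_contra hcon
      exact hx (if_neg hcon)
    have hx' : ¬ IsSmallClass x := by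
      rintro ⟨S, hS, h1⟩
      exact hs ⟨S, hS, fun y hy => h1 y (Relation.EqvGen.trans _ _ _
        (Relation.EqvGen.symm _ _ hlink) hy)⟩
    have hdn : ∀ σ : ℂ ≃+* ℂ, ∑ v, (n v : ℤ) * U (σ (eig Z v)) = 0 := by
      intro σ
      have h1 := rel_slope hnR σ
      have h2 : ((∑ v, (n v : ℤ) * U (σ (eig Z v)) : ℤ) : ℝ) =
          N * ∑ v, (n v : ℝ) * (2 * slope Z (σ (eig Z v)) - 1) := by
        push_cast
        rw [Finset.mul_sum]
        refine Finset.sum_congr rfl fun v _ => ?_
        rw [hU _ (isEig_move σ ⟨v, rfl⟩)]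
        ring
      rw [h1, mul_zero] at h2
      exact_mod_cast h2
    rcases h x with h1 | h1 | h1 | h1 | h1
    · exact Or.inl h1
    · exact Or.inr (mult_block hN hU hdn h1)
    · exact Or.inr (mult_block hN hU hdn (regular_of_quadratic ⟨x, rfl⟩ h1))
    · exact Or.inr (mult_degree hN hU hdn ⟨x, rfl⟩ h1)
    · exact absurd h1 hx'

end Pool.Agent.V7H95.Fin
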