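import Pool.Agent.V7H95.Fin.GenDefs
import Pool.Agent.V7H95.Fin.Elem
import Pool.Agent.TH117.GN.Main

/-!
# The conjecture of Tate and Beilinson for schemes generated by abelian varieties with regular blocks
-/

set_option autoImplicit false

namespace Pool.Agent.V7H95.Fin

open Pool.Agent.W495.TA Pool.Agent.W495.FM Pool.Agent.TH117.BL

variable {p : ℕ} [Fact p.Prime] {ν : PadicAlgCl p ≃+* ℂ} {Ω : Type} [Field Ω] [IsAlgClosed Ω]
  [CharZero Ω] {V : Type} {T : Homology Ω V}

theorem regular_of_pure {Z : RedAV p ν} (h : HasPureBlocks Z) : HasRegularBlocks Z := by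
  intro w
  rcases h (eig Z w) ⟨w, rfl⟩ with h | h | h | h
  · exact Or.inl h
  · exact Or.inr (Or.inl h)
  · exact Or.inr (Or.inr (Or.inl h))
  · exact Or.inr (Or.inr (Or.inr (Or.inl h)))

theorem tb_block (hT : IsHomology T) {X : V} (hX : Generated T (IsBlockAbelian p ν T) X) :
    TB T X := by
  refine tb_generated hT (fun X hX => ?_) hX
  obtain ⟨Z, Y, C, M, g, hZ, hY, hC, hM, hX⟩ := hX
  exact tb_abelian hT hC
    (Pool.Agent.TH117.GN.tateHolds_elem (elementary_of_blocks (regular_of_pure hZ)) hY hC) hM hX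

end Pool.Agent.V7H95.Fin
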