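import Mathlib
import Pool.Agent.V7H82.LR.Stm

/-!
# Regular blocks of Frobenius eigenvalues: definitions
-/

set_option autoImplicit false

namespace Pool.Agent.V7H95.Fin

open Pool.Agent.W495.TA Pool.Agent.TH117.BL

variable {p : ℕ} [Fact p.Prime] {ν : PadicAlgCl p ≃+* ℂ}

/-- The complex number `x` is an eigenvalue of the Frobenius endomorphism on the first cohomology of
`Z`. -/
def IsEigenvalue (Z : RedAV p ν) (x : ℂ) : Prop := ∃ w : Emb Z, eig Z w = x

/-- The complex conjugate. (The conjugate of an eigenvalue `x` is `q / x`.) -/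
noncomputable def bar (x : ℂ) : ℂ := starRingEnd ℂ x

/-- The slope of `x`: the valuation given by `ν`, normalised such that the slope of the number
`q = p ^ a` of elements of the ground field is one. -/
noncomputable def slope (Z : RedAV p ν) (x : ℂ) : ℝ :=
  Real.log ‖ν.symm x‖ / Real.log ‖(p : PadicAlgCl p) ^ Z.a‖

/-- The numbers `x` and `y` are conjugate over `ℚ`. -/
def AreConjugate (x y : ℂ) : Prop := ∃ σ : ℂ ≃+* ℂ, σ x = y

/-- The numbers `x` and `y` are *flipped*: some automorphism of the complex numbers fixes one of them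
and maps the other one to its complex conjugate, or maps `x` to `y` and `y` to the complex conjugate
of `x`. -/
def AreFlipped (x y : ℂ) : Prop :=
  ∃ σ : ℂ ≃+* ℂ, (σ x = x ∧ σ y = bar y) ∨ (σ x = bar x ∧ σ y = y) ∨ (σ x = y ∧ σ y = bar x)

/-- A *block* for the prime number `ℓ` and the group `P` of automorphisms of the complex numbers: a
finite set `B` of Frobenius eigenvalues which does not contain the complex conjugate of one of its
elements, which is stable under `P`, on which the elements of `P` act with orders that are powers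
of `ℓ`, and whose elements are flipped against all nonreal eigenvalues outside of `B` and the complex
conjugate of `B`. -/
structure IsBlock (Z : RedAV p ν) (ℓ : ℕ) (P : Subgroup (ℂ ≃+* ℂ)) (B : Finset ℂ) : Prop where
  prime : ℓ.Prime
  eigenvalue : ∀ x ∈ B, IsEigenvalue Z x
  half : ∀ x ∈ B, bar x ∉ B
  stable : ∀ σ ∈ P, ∀ x ∈ B, σ x ∈ B
  order : ∀ σ ∈ P, ∃ n : ℕ, ∀ x ∈ B, (σ ^ ℓ ^ n) x = x
  flipped : ∀ x ∈ B, ∀ y, IsEigenvalue Z y → bar y ≠ y → y ∉ B → bar y ∉ B → AreFlipped x y

/-- The integers `u x` are *weights* for the conjugates of the elements of `B`: for an integer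
`D > 0` and all these conjugates `x`, the number `u x` is `D (2 λ - 1)`, where `λ` is the slope
of `x`. -/
def IsWeight (Z : RedAV p ν) (B : Finset ℂ) (u : ℂ → ℤ) : Prop :=
  ∃ D : ℕ, 0 < D ∧ ∀ x ∈ B, ∀ σ : ℂ ≃+* ℂ, (u (σ x) : ℝ) = D * (2 * slope Z (σ x) - 1)

/-- The block is one orbit of `P`, and the sum over the block of the weights of some conjugates
`σ x` is not divisible by `ℓ`. -/
def IsOrbitRegular (ℓ : ℕ) (P : Subgroup (ℂ ≃+* ℂ)) (B : Finset ℂ) (u : ℂ → ℤ) : Prop :=
  (∀ x ∈ B, ∀ y ∈ B, ∃ σ ∈ P, σ x = y) ∧ ∃ σ : ℂ ≃+* ℂ, ¬ (ℓ : ℤ) ∣ ∑ x ∈ B, u (σ x)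

/-- All functions modulo `ℓ` on the block which are invariant under `P` and orthogonal to all
translates of the weights vanish. -/
def IsRegularModulo (ℓ : ℕ) (P : Subgroup (ℂ ≃+* ℂ)) (B : Finset ℂ) (u : ℂ → ℤ) : Prop :=
  ∀ t : ℂ → ZMod ℓ, (∀ σ ∈ P, ∀ x ∈ B, t (σ x) = t x) →
    (∀ σ : ℂ ≃+* ℂ, ∑ x ∈ B, t x * ((u (σ x) : ℤ) : ZMod ℓ) = 0) → ∀ x ∈ B, t x = 0

/-- The eigenvalue `x` belongs to a regular block. -/
def IsInRegularBlock (Z : RedAV p ν) (x : ℂ) : Prop :=
  ∃ (ℓ : ℕ) (P : Subgroup (ℂ ≃+* ℂ)) (B : Finset ℂ) (u : ℂ → ℤ), x ∈ B ∧ IsBlock Z ℓ P B ∧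
    IsWeight Z B u ∧ (IsOrbitRegular ℓ P B u ∨ IsRegularModulo ℓ P B u)

/-- The field `ℚ(x)` contains an imaginary quadratic field `K` such that `[ℚ(x) : K] = ℓ ^ k` is a power
of a prime number; the set `B` consists of the conjugates of `x` over `K` (such fields `K` correspond to
the partitions of the conjugates of `x` over `ℚ` into a set `B` and its complex conjugate which are
preserved by all automorphisms); the sum of the weights over `B` is not divisible by `ℓ`; and `x` is
flipped against the nonreal eigenvalues which are not conjugate to `x`. -/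
def IsOverQuadratic (Z : RedAV p ν) (x : ℂ) : Prop :=
  ∃ (ℓ k : ℕ) (B : Finset ℂ) (u : ℂ → ℤ), ℓ.Prime ∧ x ∈ B ∧ (∀ y ∈ B, AreConjugate x y) ∧
    (∀ y, AreConjugate x y → (y ∈ B ↔ bar y ∉ B)) ∧
    (∀ σ : ℂ ≃+* ℂ, (∃ y ∈ B, σ y ∈ B) → ∀ y ∈ B, σ y ∈ B) ∧
    B.card = ℓ ^ k ∧ IsWeight Z B u ∧ ¬ (ℓ : ℤ) ∣ ∑ y ∈ B, u y ∧
    ∀ y, IsEigenvalue Z y → bar y ≠ y → ¬ AreConjugate x y → AreFlipped x y

/-- The degree of the number field `ℚ(x)`, the number of the conjugates of `x`, is `2 ℓ ^ k` with a prime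
number `ℓ`; for each set `Φ` of conjugates of `x` which contains one element of each pair of complex
conjugates the sum of the weights over `Φ` is not divisible by `ℓ`; and `x` is flipped against the
nonreal eigenvalues which are not conjugate to `x`. -/
def HasPrimePowerDegree (Z : RedAV p ν) (x : ℂ) : Prop :=
  ∃ (ℓ k : ℕ) (u : ℂ → ℤ), ℓ.Prime ∧ Nat.card {y : ℂ // AreConjugate x y} = 2 * ℓ ^ k ∧
    IsWeight Z {x} u ∧
    (∀ Φ : Finset ℂ, (∀ y ∈ Φ, AreConjugate x y) →
      (∀ y, AreConjugate x y → (y ∈ Φ ↔ bar y ∉ Φ)) → ¬ (ℓ : ℤ) ∣ ∑ y ∈ Φ, u y) ∧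
    ∀ y, IsEigenvalue Z y → bar y ≠ y → ¬ AreConjugate x y → AreFlipped x y

/-- Each Frobenius eigenvalue of `Z` is real (so its slope is `1 / 2` and a power of it is a power
of `p`), or it belongs to a regular block, or the number field generated by it has prime power degree
over an imaginary quadratic field as in `IsOverQuadratic`, or twice a prime power degree over `ℚ` as in
`HasPrimePowerDegree`, or it belongs to a small class of linked embeddings
(`Pool.Agent.V7H82.LR.IsSmallClass`; for example it comes from a factor of dimension at most five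
which is independent of the other factors). -/
def HasRegularBlocks (Z : RedAV p ν) : Prop :=
  ∀ w : Emb Z, bar (eig Z w) = eig Z w ∨ IsInRegularBlock Z (eig Z w) ∨
    IsOverQuadratic Z (eig Z w) ∨ HasPrimePowerDegree Z (eig Z w) ∨
      Pool.Agent.V7H82.LR.IsSmallClass w

end Pool.Agent.V7H95.Fin
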