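import Pool.Agent.V7H95.Fin.Two
import Pool.Agent.V7H95.Fin.Blk
import Pool.Agent.V7H95.Syl.Sylow
import Pool.Agent.N202.QR.Defs
import Pool.Agent.H925R2.Core

/-!
# Multiplicities of the Frobenius eigenvalues in relations: blocks
-/

set_option autoImplicit false
set_option linter.unusedSectionVars false
set_option linter.unusedVariables false

namespace Pool.Agent.V7H95.Fin

open NumberField Module MulAction
open Pool.Agent.W495.TA Pool.Agent.TH117.BL Pool.Agent.TH117.PO Pool.Agent.N202.QR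
  Pool.Agent.V7H82.LR Pool.Agent.V7H95.Syl

noncomputable section

variable {p : ℕ} [Fact p.Prime] {ν : PadicAlgCl p ≃+* ℂ} {Z : RedAV p ν}

theorem q_ne : ((p : ℂ) ^ Z.a) ≠ 0 := by
  have hp : (p : ℂ) ≠ 0 := by exact_mod_cast (Fact.out : p.Prime).ne_zero
  exact pow_ne_zero _ hp

theorem eig_mul_conj (w : Emb Z) : eig Z w * eig Z (conjE w) = (p : ℂ) ^ Z.a := by
  have h1 := (Z.frob w.1).weil w.2
  have h2 : eig Z (conjE w) = starRingEnd ℂ (eig Z w) := rfl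
  rw [h2, Complex.mul_conj, Complex.normSq_eq_norm_sq]
  change ((‖w.2 (Z.π w.1)‖ ^ 2 : ℝ) : ℂ) = _
  rw [h1]
  push_cast
  rfl

theorem eig_bar (w : Emb Z) : bar (eig Z w) = eig Z (conjE w) := rfl

theorem eig_move (σ : ℂ ≃+* ℂ) (w : Emb Z) : σ (eig Z w) = eig Z (moveE σ w) := rfl

theorem bar_bar (x : ℂ) : bar (bar x) = x := star_star x

theorem isEig_move (σ : ℂ ≃+* ℂ) {x : ℂ} (hx : IsEigenvalue Z x) : IsEigenvalue Z (σ x) := by
  obtain ⟨w, rfl⟩ := hx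
  exact ⟨moveE σ w, rfl⟩

theorem isEig_bar {x : ℂ} (hx : IsEigenvalue Z x) : IsEigenvalue Z (bar x) := by
  obtain ⟨w, rfl⟩ := hx
  exact ⟨conjE w, rfl⟩

theorem mul_bar {x : ℂ} (hx : IsEigenvalue Z x) : x * bar x = (p : ℂ) ^ Z.a := by
  obtain ⟨w, rfl⟩ := hx
  rw [eig_bar, eig_mul_conj]

theorem eig_ne {x : ℂ} (hx : IsEigenvalue Z x) : x ≠ 0 := by
  rintro rfl
  have h1 := mul_bar hx
  rw [zero_mul] at h1
  exact q_ne h1.symm

theorem map_q (σ : ℂ ≃+* ℂ) : σ ((p : ℂ) ^ Z.a) = (p : ℂ) ^ Z.a := by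
  rw [map_pow, map_natCast]

theorem map_bar (σ : ℂ ≃+* ℂ) {x : ℂ} (hx : IsEigenvalue Z x) : σ (bar x) = bar (σ x) := by
  have h1 := congrArg σ (mul_bar hx)
  rw [map_mul, map_q, ← mul_bar (isEig_move σ hx)] at h1
  exact mul_left_cancel₀ (eig_ne (isEig_move σ hx)) h1

/-- The logarithm of the norm of `q`. -/
def lq (Z : RedAV p ν) : ℝ := Real.log ‖(p : PadicAlgCl p) ^ Z.a‖

theorem lq_ne (Z : RedAV p ν) : lq Z ≠ 0 := by
  have h1 : ‖(p : PadicAlgCl p) ^ Z.a‖ = ((p : ℝ) ^ Z.a)⁻¹ := by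
    have h2 : (p : PadicAlgCl p) ^ Z.a =
        (algebraMap ℚ_[p] (PadicAlgCl p)) ((p : ℚ_[p]) ^ Z.a) := by
      push_cast
      rfl
    rw [h2, PadicAlgCl.norm_extends, norm_pow, Padic.norm_p, inv_pow]
  unfold lq
  rw [h1, Real.log_inv, neg_ne_zero]
  have h3 : (1 : ℝ) < (p : ℝ) ^ Z.a :=
    one_lt_pow₀ (by exact_mod_cast (Fact.out : p.Prime).one_lt) Z.pos.ne'
  exact (Real.log_pos h3).ne'

theorem slope_mul (x : ℂ) : slope Z x * lq Z = Real.log ‖ν.symm x‖ := by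
  unfold slope
  exact div_mul_cancel₀ _ (lq_ne Z)

theorem norm_q : ‖ν.symm ((p : ℂ) ^ Z.a)‖ = ‖(p : PadicAlgCl p) ^ Z.a‖ := by
  rw [map_pow, map_natCast]

theorem nrm_ne {x : ℂ} (hx : x ≠ 0) : ‖ν.symm x‖ ≠ 0 := by
  rw [norm_ne_zero_iff]
  exact (map_ne_zero_iff _ ν.symm.injective).2 hx

/-- The slopes of complex conjugate eigenvalues. -/
theorem slope_bar {x : ℂ} (hx : IsEigenvalue Z x) : slope Z (bar x) = 1 - slope Z x := by
  have h1 := congrArg (fun y => Real.log ‖ν.symm y‖) (mul_bar hx)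
  rw [map_mul, norm_mul, Real.log_mul (nrm_ne (eig_ne hx)) (nrm_ne (eig_ne (isEig_bar hx))),
    norm_q, ← slope_mul (Z := Z), ← slope_mul (Z := Z)] at h1
  change _ = lq Z at h1
  have h2 : (slope Z x + slope Z (bar x)) * lq Z = 1 * lq Z := by rw [add_mul, h1, one_mul]
  have h3 := mul_right_cancel₀ (lq_ne Z) h2
  linarith

/-- A multiplicative relation is a relation between the slopes. -/
theorem rel_slope {e : Emb Z → ℕ} (he : IsRel Z e) (σ : ℂ ≃+* ℂ) :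
    ∑ w, (e w : ℝ) * (2 * slope Z (σ (eig Z w)) - 1) = 0 := by
  classical
  obtain ⟨s, hs, h⟩ := he
  have h1 := congrArg (fun y => Real.log ‖ν.symm (σ y)‖) h
  rw [map_pow σ, map_pow ν.symm, norm_pow, Real.log_pow, map_prod σ, map_prod ν.symm, norm_prod,
    Real.log_prod (fun w _ => by
      rw [map_pow σ]
      exact nrm_ne (pow_ne_zero _ (eig_ne (isEig_move σ ⟨w, rfl⟩)))),
    map_pow σ ((p : ℂ) ^ Z.a), map_q, map_pow ν.symm ((p : ℂ) ^ Z.a), norm_pow, Real.log_pow,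
    norm_q] at h1
  change _ = _ * lq Z at h1
  have h2 : ∀ w, Real.log ‖ν.symm (σ (eig Z w ^ e w))‖ =
      (e w : ℝ) * slope Z (σ (eig Z w)) * lq Z := by
    intro w
    rw [map_pow σ, map_pow ν.symm, norm_pow, Real.log_pow, mul_assoc, slope_mul]
  rw [Finset.sum_congr rfl fun w _ => h2 w, ← Finset.sum_mul] at h1
  push_cast at h1
  have h3 : (s : ℝ) * lq Z * (2 * ∑ w, (e w : ℝ) * slope Z (σ (eig Z w)) - ∑ w, (e w : ℝ)) = 0 := by
    linear_combination h1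
  have h4 := (mul_eq_zero.1 h3).resolve_left
    (mul_ne_zero (by exact_mod_cast hs.ne') (lq_ne Z))
  rw [← h4, Finset.mul_sum, ← Finset.sum_sub_distrib]
  exact Finset.sum_congr rfl fun w _ => by ring

/-- There are integral weights. -/
theorem exists_weight (Z : RedAV p ν) : ∃ (N : ℕ) (W : ℂ → ℤ), 0 < N ∧
    ∀ x, IsEigenvalue Z x → (W x : ℝ) = N * (2 * slope Z x - 1) := by
  classical
  have h1 : ∀ w : Emb Z, ∃ d m : ℕ, 0 < d ∧ (d : ℝ) * slope Z (eig Z w) = m := by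
    intro w
    refine ⟨Nat.card {φ' : (Z.X.factor w.1).E →+* ℂ // SamePlace p ν w.2 φ'},
      Nat.card {φ' : (Z.X.factor w.1).E →+* ℂ // SamePlace p ν w.2 φ' ∧
        φ' ∈ (Z.X.factor w.1).Φ}, ?_, ?_⟩
    · have _ : Nonempty {φ' : (Z.X.factor w.1).E →+* ℂ // SamePlace p ν w.2 φ'} :=
        ⟨⟨w.2, AlgEquiv.refl, fun x => by simp⟩⟩
      exact Nat.card_pos
    · have h2 := congrArg Real.log ((Z.frob w.1).shimuraTaniyama w.2)
      rw [Real.log_pow, Real.log_pow] at h2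
      change _ * Real.log ‖ν.symm (eig Z w)‖ = _ * lq Z at h2
      rw [← slope_mul (Z := Z), ← mul_assoc] at h2
      exact mul_right_cancel₀ (lq_ne Z) h2
  choose d m hd hm using h1
  have h3 : ∀ w : Emb Z, ∃ k : ℤ, ((∏ w, d w : ℕ) : ℝ) * (2 * slope Z (eig Z w) - 1) = k := by
    intro w
    refine ⟨2 * ((∏ v ∈ Finset.univ.erase w, d v : ℕ) : ℤ) * m w - ((∏ w, d w : ℕ) : ℤ), ?_⟩
    have h4 : ∏ w, d w = d w * ∏ v ∈ Finset.univ.erase w, d v :=
      (Finset.mul_prod_erase _ _ (Finset.mem_univ w)).symm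
    rw [Int.cast_sub, Int.cast_mul, Int.cast_mul, Int.cast_natCast, Int.cast_natCast,
      Int.cast_natCast, ← hm w, h4, Nat.cast_mul]
    push_cast
    ring
  refine ⟨∏ w, d w, fun x => ⌊((∏ w, d w : ℕ) : ℝ) * (2 * slope Z x - 1)⌋,
    Finset.prod_pos fun w _ => hd w, ?_⟩
  rintro _ ⟨w, rfl⟩
  obtain ⟨k, hk⟩ := h3 w
  beta_reduce
  rw [hk, Int.floor_intCast]

open Classical in
/-- The multiplicity of `x` in `d`. -/
def mult (d : Emb Z → ℤ) (x : ℂ) : ℤ := ∑ w, if eig Z w = x then d w else 0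

open Classical in
/-- The set of the eigenvalues. -/
def eigs (Z : RedAV p ν) : Finset ℂ := Finset.univ.image (eig Z)

theorem mem_eigs {x : ℂ} : x ∈ eigs Z ↔ IsEigenvalue Z x := by
  classical
  unfold eigs IsEigenvalue
  simp only [Finset.mem_image, Finset.mem_univ, true_and]

theorem sum_mult {M : Type*} [AddCommGroup M] (d : Emb Z → ℤ) (g : ℂ → M) :
    ∑ w, d w • g (eig Z w) = ∑ x ∈ eigs Z, mult d x • g x := by
  classical
  have h1 : ∀ w : Emb Z, d w • g (eig Z w) =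
      ∑ x ∈ eigs Z, if eig Z w = x then d w • g x else 0 := by
    intro w
    rw [Finset.sum_ite_eq, if_pos (mem_eigs.2 ⟨w, rfl⟩)]
  rw [Finset.sum_congr rfl fun w _ => h1 w, Finset.sum_comm]
  refine Finset.sum_congr rfl fun x _ => ?_
  unfold mult
  rw [Finset.sum_smul]
  refine Finset.sum_congr rfl fun w _ => ?_
  split_ifs
  · rfl
  · rw [zero_smul]

/-- The action on the complex numbers. -/
@[reducible] def cAct : MulAction (ℂ ≃+* ℂ) ℂ where
  smul σ x := σ x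
  one_smul _ := rfl
  mul_smul _ _ _ := rfl

attribute [local instance] cAct

theorem cact_def (σ : ℂ ≃+* ℂ) (x : ℂ) : σ • x = σ x := rfl

/-- **The part of a relation on a block.** -/
theorem rel_block {N : ℕ} {W : ℂ → ℤ} (hN : 0 < N)
    (hW : ∀ x, IsEigenvalue Z x → (W x : ℝ) = N * (2 * slope Z x - 1)) {d : Emb Z → ℤ}
    (hd : ∀ σ : ℂ ≃+* ℂ, ∑ w, d w * W (σ (eig Z w)) = 0) {B : Finset ℂ}
    (heig : ∀ x ∈ B, IsEigenvalue Z x) (hhalf : ∀ x ∈ B, bar x ∉ B)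
    (hflip : ∀ x ∈ B, ∀ y, IsEigenvalue Z y → bar y ≠ y → y ∉ B → bar y ∉ B → AreFlipped x y)
    {u : ℂ → ℤ} (hu : IsWeight Z B u) (σ : ℂ ≃+* ℂ) :
    ∑ x ∈ B, (mult d x - mult d (bar x)) * u (σ • x) = 0 := by
  classical
  obtain ⟨D, hD, hu⟩ := hu
  let S : Finset ℂ := (eigs Z).filter fun x => bar x ≠ x
  have hS : ∀ x, x ∈ S ↔ IsEigenvalue Z x ∧ bar x ≠ x := by
    intro x
    rw [Finset.mem_filter, mem_eigs]
  have hWb : ∀ x, IsEigenvalue Z x → W (bar x) = -W x := by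
    intro x hx
    have h1 := hW _ (isEig_bar hx)
    rw [slope_bar hx] at h1
    have h2 := hW _ hx
    have h3 : ((W (bar x) : ℤ) : ℝ) = ((-W x : ℤ) : ℝ) := by
      rw [h1, Int.cast_neg, h2]
      ring
    exact_mod_cast h3
  have hst : ∀ σ : ℂ ≃+* ℂ, ∀ x ∈ (S : Set ℂ), σ • x ∈ (S : Set ℂ) := by
    intro σ x hx
    rw [Finset.mem_coe, hS] at hx ⊢
    refine ⟨isEig_move σ hx.1, fun h => hx.2 ?_⟩
    rw [cact_def, ← map_bar σ hx.1] at h
    exact σ.injective h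
  have hbS : ∀ x ∈ S, bar x ∈ S := by
    intro x hx
    rw [hS] at hx ⊢
    refine ⟨isEig_bar hx.1, fun h => hx.2 ?_⟩
    rw [bar_bar] at h
    exact h.symm
  have hrelS : ∀ σ : ℂ ≃+* ℂ, ∑ x ∈ S, mult d x * W (σ x) = 0 := by
    intro σ
    have h1 := sum_mult d (fun x => W (σ x))
    simp only [smul_eq_mul] at h1
    rw [hd σ] at h1
    rw [h1, Finset.sum_filter]
    refine Finset.sum_congr rfl fun x hx => ?_
    split_ifs with h
    · rfl
    · push Not at h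
      have hx' := mem_eigs.1 hx
      have h2 := hWb _ (isEig_move σ hx')
      rw [← map_bar σ hx', h] at h2
      have h3 : W (σ x) = 0 := by omega
      rw [h3, mul_zero]
  have hmain := block_rel (Γ := ℂ ≃+* ℂ) (X := ℂ) (cb := bar) (S := (S : Set ℂ)) (W := W)
    (c := fun x => mult d x - mult d (bar x)) S.finite_toSet hst (fun x hx => hbS x hx)
    (fun x _ => bar_bar x) (fun σ x hx => map_bar σ ((hS x).1 hx).1)
    (fun x hx => hWb x ((hS x).1 hx).1) (fun x _ => by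
      simp only [bar_bar]
      ring)
    (fun σ => by
      rw [finsum_mem_coe_finset]
      have h1 : ∑ x ∈ S, mult d (bar x) * W (σ x) = 0 := by
        have h2 : ∑ x ∈ S, mult d (bar x) * W (σ x) = ∑ x ∈ S, mult d x * W (σ (bar x)) := by
          refine Finset.sum_bij' (fun x _ => bar x) (fun x _ => bar x) hbS hbS
            (fun x _ => bar_bar x) (fun x _ => bar_bar x) fun x hx => ?_
          rw [bar_bar]
        rw [h2, ← neg_eq_zero, ← Finset.sum_neg_distrib, ← hrelS σ]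
        refine Finset.sum_congr rfl fun x hx => ?_
        rw [map_bar σ ((hS x).1 hx).1, hWb _ (isEig_move σ ((hS x).1 hx).1)]
        ring
      have h3 := hrelS σ
      simp only [cact_def, sub_mul, Finset.sum_sub_distrib]
      rw [h3, h1, sub_zero])
    B
    (fun x hx => by
      rw [Finset.mem_coe, hS]
      refine ⟨heig x hx, fun h => hhalf x hx ?_⟩
      rw [h]
      exact hx)
    hhalf
    (fun x hx y hy h1 h2 => hflip x hx y ((hS y).1 hy).1 ((hS y).1 hy).2 h1 h2)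
  have h1 := hmain σ
  have h2 : (N : ℝ) * ∑ x ∈ B, ((mult d x - mult d (bar x) : ℤ) : ℝ) * (u (σ • x) : ℝ) =
      D * ∑ x ∈ B, ((mult d x - mult d (bar x) : ℤ) : ℝ) * (W (σ • x) : ℝ) := by
    rw [Finset.mul_sum, Finset.mul_sum]
    refine Finset.sum_congr rfl fun x hx => ?_
    have h3 := hu x hx σ
    have h4 := hW _ (isEig_move σ (heig x hx))
    rw [cact_def, h3, h4]
    ring
  have h5 : ∑ x ∈ B, ((mult d x - mult d (bar x) : ℤ) : ℝ) * (W (σ • x) : ℝ) = 0 := by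
    exact_mod_cast h1
  rw [h5, mul_zero] at h2
  have h6 := (mul_eq_zero.1 h2).resolve_left (by exact_mod_cast hN.ne')
  exact_mod_cast h6

/-- **Multiplicities on regular blocks.** -/
theorem mult_block {N : ℕ} {W : ℂ → ℤ} (hN : 0 < N)
    (hW : ∀ x, IsEigenvalue Z x → (W x : ℝ) = N * (2 * slope Z x - 1)) {d : Emb Z → ℤ}
    (hd : ∀ σ : ℂ ≃+* ℂ, ∑ w, d w * W (σ (eig Z w)) = 0) {x : ℂ} (hx : IsInRegularBlock Z x) :
    mult d x = mult d (bar x) := by
  classical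
  obtain ⟨ℓ, P, B, u, hxB, hB, hu, hcrit⟩ := hx
  have _ : Fact ℓ.Prime := ⟨hB.prime⟩
  have hfin := block_mod (Γ := ℂ ≃+* ℂ) (X := ℂ) (W := u)
    (c := fun x => mult d x - mult d (bar x)) B ℓ P hB.stable hB.order
    (by
      rcases hcrit with ⟨h1, h2⟩ | h
      · exact crit_orbit (Γ := ℂ ≃+* ℂ) (X := ℂ) h1 h2
      · exact h) (rel_block hN hW hd hB.eigenvalue hB.half hB.flipped hu) x hxB
  linarith

theorem conj_bar {x y : ℂ} (h : AreConjugate x y) : AreConjugate x (bar y) := by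
  obtain ⟨σ, rfl⟩ := h
  exact ⟨(starRingAut : RingAut ℂ) * σ, rfl⟩

theorem conj_move (σ : ℂ ≃+* ℂ) {x y : ℂ} (h : AreConjugate x y) : AreConjugate x (σ y) := by
  obtain ⟨τ, rfl⟩ := h
  exact ⟨σ * τ, rfl⟩

/-- Translation of a flip. -/
theorem flip_move (a : ℂ ≃+* ℂ) {x z : ℂ} (hx : IsEigenvalue Z x) (hz : IsEigenvalue Z z)
    (h : AreFlipped x (a⁻¹ z)) : AreFlipped (a x) z := by
  obtain ⟨τ, hτ⟩ := h
  have h5 : a (a⁻¹ z) = z := smul_inv_smul a z
  have h7 : a⁻¹ (a x) = x := inv_smul_smul a x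
  have hz' : IsEigenvalue Z (a⁻¹ z) := isEig_move a⁻¹ hz
  have e1 : (a * τ * a⁻¹) (a x) = a (τ x) := by
    change a (τ (a⁻¹ (a x))) = _
    rw [h7]
  have e2 : (a * τ * a⁻¹) z = a (τ (a⁻¹ z)) := rfl
  refine ⟨a * τ * a⁻¹, ?_⟩
  rw [e1, e2]
  rcases hτ with ⟨t1, t2⟩ | ⟨t1, t2⟩ | ⟨t1, t2⟩
  · left
    rw [t1, t2, map_bar a hz', h5]
    exact ⟨rfl, rfl⟩
  · right; left
    rw [t1, t2, map_bar a hx, h5]
    exact ⟨rfl, rfl⟩
  · right; right
    rw [t1, t2, map_bar a hx, h5]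
    exact ⟨rfl, rfl⟩

theorem flip_conj {x : ℂ} (hx : IsEigenvalue Z x)
    (hflip : ∀ y, IsEigenvalue Z y → bar y ≠ y → ¬ AreConjugate x y → AreFlipped x y) {y z : ℂ}
    (hy : AreConjugate x y) (hz : IsEigenvalue Z z) (hne : bar z ≠ z) (h3 : ¬ AreConjugate x z) :
    AreFlipped y z := by
  obtain ⟨a, rfl⟩ := hy
  refine flip_move a hx hz (hflip (a⁻¹ z) (isEig_move a⁻¹ hz) ?_ ?_)
  · intro h
    apply hne
    have h5 : a (a⁻¹ z) = z := smul_inv_smul a z
    rw [← h5, ← map_bar a (isEig_move a⁻¹ hz), h]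
  · rintro ⟨b, hb⟩
    refine h3 ⟨a * b, ?_⟩
    change a (b x) = z
    rw [hb]
    exact smul_inv_smul a z

/-- **Multiplicities of the eigenvalues which generate a field of degree `2 ℓ ^ k`.** -/
theorem mult_degree {N : ℕ} {W : ℂ → ℤ} (hN : 0 < N)
    (hW : ∀ x, IsEigenvalue Z x → (W x : ℝ) = N * (2 * slope Z x - 1)) {d : Emb Z → ℤ}
    (hd : ∀ σ : ℂ ≃+* ℂ, ∑ w, d w * W (σ (eig Z w)) = 0) {x : ℂ} (hx : IsEigenvalue Z x)
    (h : HasPrimePowerDegree Z x) : mult d x = mult d (bar x) := by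
  classical
  by_cases hreal : bar x = x
  · rw [hreal]
  obtain ⟨ℓ, k, u, hℓ, hcard, ⟨D, hD, hu⟩, hΦ, hflip⟩ := h
  have _ : Fact ℓ.Prime := ⟨hℓ⟩
  have heig : ∀ y, AreConjugate x y → IsEigenvalue Z y := by
    rintro y ⟨σ, rfl⟩
    exact isEig_move σ hx
  have hner : ∀ y, AreConjugate x y → bar y ≠ y := by
    rintro y ⟨σ, rfl⟩ h
    rw [← map_bar σ hx] at h
    exact hreal (σ.injective h)
  let O : Finset ℂ := (eigs Z).filter (AreConjugate x)
  have hO : ∀ y, y ∈ O ↔ AreConjugate x y := by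
    intro y
    rw [Finset.mem_filter, mem_eigs]
    exact ⟨fun h => h.2, fun h => ⟨heig y h, h⟩⟩
  let inv : O → O := fun y => ⟨bar y.1, (hO _).2 (conj_bar ((hO _).1 y.2))⟩
  have hinv : ∀ y, inv (inv y) = y := fun y => Subtype.ext (bar_bar y.1)
  have hne : ∀ y, inv y ≠ y := fun y h => hner y.1 ((hO _).1 y.2) (congrArg Subtype.val h)
  let _ : MulAction (ℂ ≃+* ℂ) O :=
    { smul := fun σ y => ⟨σ y.1, (hO _).2 (conj_move σ ((hO _).1 y.2))⟩
      one_smul := fun y => rfl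
      mul_smul := fun a b y => rfl }
  have hval : ∀ (σ : ℂ ≃+* ℂ) (y : O), (σ • y).1 = σ y.1 := fun _ _ => rfl
  let G : Subgroup (Equiv.Perm O) := (MulAction.toPermHom (ℂ ≃+* ℂ) O).range
  have hGval : ∀ g : G, ∃ σ : ℂ ≃+* ℂ, ∀ y : O, (g • y).1 = σ y.1 := by
    rintro ⟨g, σ, rfl⟩
    exact ⟨σ, fun y => rfl⟩
  have _ : MulAction.IsPretransitive G O := by
    refine ⟨fun y z => ?_⟩
    obtain ⟨a, ha⟩ := (hO _).1 y.2
    obtain ⟨b, hb⟩ := (hO _).1 z.2
    refine ⟨⟨MulAction.toPermHom (ℂ ≃+* ℂ) O (b * a⁻¹), b * a⁻¹, rfl⟩, Subtype.ext ?_⟩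
    change b (a⁻¹ y.1) = z.1
    rw [← ha, ← hb]
    exact congrArg b (inv_smul_smul a x)
  have hcardO : Fintype.card O = 2 * ℓ ^ k := by
    rw [← hcard, ← Nat.card_eq_fintype_card]
    exact Nat.card_congr (Equiv.subtypeEquivRight fun y => hO y)
  have huc : ∀ y, AreConjugate x y → (u y : ℝ) = D * (2 * slope Z y - 1) := by
    rintro y ⟨σ, rfl⟩
    exact hu x (Finset.mem_singleton_self x) σ
  have hub : ∀ y, AreConjugate x y → u (bar y) = -u y := by
    intro y hy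
    have h1 := huc _ (conj_bar hy)
    rw [slope_bar (heig y hy)] at h1
    have h3 : ((u (bar y) : ℤ) : ℝ) = ((-u y : ℤ) : ℝ) := by
      rw [h1, Int.cast_neg, huc y hy]
      ring
    exact_mod_cast h3
  -- the relation on a half
  obtain ⟨Ψ, hΨ⟩ := Pool.Agent.H925R2.exists_isHalf hinv hne
  have hmem : ∀ (Φ : Finset O) (y : O), y.1 ∈ Φ.map (Function.Embedding.subtype _) ↔ y ∈ Φ := by
    intro Φ y
    rw [Finset.mem_map]
    constructor
    · rintro ⟨z, hz, hzy⟩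
      have e : z = y := Subtype.ext hzy
      rwa [← e]
    · intro hy
      exact ⟨y, hy, rfl⟩
  have hsub : ∀ (Φ : Finset O), ∀ y ∈ Φ.map (Function.Embedding.subtype _), y ∈ O := by
    intro Φ y hy
    rw [Finset.mem_map] at hy
    obtain ⟨z, hz, rfl⟩ := hy
    exact z.2
  have hrel : ∀ σ : ℂ ≃+* ℂ, ∑ y : O, (mult d y.1 - mult d (bar y.1)) * u (σ y.1) = 0 := by
    intro σ
    have h1 := rel_block hN hW hd (B := Ψ.map (Function.Embedding.subtype _))
      (fun y hy => heig y ((hO y).1 (hsub Ψ y hy)))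
      (fun y hy h => by
        have h2 := (hmem Ψ ⟨y, hsub Ψ y hy⟩).1 hy
        have h3 := (hmem Ψ (inv ⟨y, hsub Ψ y hy⟩)).1 h
        exact (hΨ _).1 h2 h3)
      (fun y hy z hz hzne h1 h2 => by
        refine flip_conj hx hflip ((hO y).1 (hsub Ψ y hy)) hz hzne fun h3 => ?_
        have h4 : (⟨z, (hO z).2 h3⟩ : O) ∉ Ψ := fun h => h1 ((hmem Ψ ⟨z, (hO z).2 h3⟩).2 h)
        rw [hΨ, not_not] at h4
        exact h2 ((hmem Ψ (inv ⟨z, (hO z).2 h3⟩)).2 h4))
      (u := u) ⟨D, hD, fun y hy τ => huc _ (conj_move τ ((hO y).1 (hsub Ψ y hy)))⟩ σ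
    rw [Finset.sum_map] at h1
    have h2 := hΨ.sum_symm hinv (fun y : O => (mult d y.1 - mult d (bar y.1)) * u (σ y.1))
      (fun y => by
        change (mult d (bar y.1) - mult d (bar (bar y.1))) * u (σ (bar y.1)) = _
        rw [bar_bar, map_bar σ (heig _ ((hO _).1 y.2)), hub _ (conj_move σ ((hO _).1 y.2))]
        ring)
    rw [h2]
    have h3 : ∑ y ∈ Ψ, (mult d y.1 - mult d (bar y.1)) * u (σ y.1) = 0 := h1
    rw [h3, add_zero]
  have hfin := Pool.Agent.H925R2.core (G := G) (R := O) (inv := inv) hinv hne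
    (by
      intro g y
      obtain ⟨σ, hσ⟩ := hGval g
      apply Subtype.ext
      rw [hσ]
      change σ (bar y.1) = bar (g • y).1
      rw [hσ, map_bar σ (heig _ ((hO _).1 y.2))])
    ℓ k hcardO (fun y => u y.1) (fun y => mult d y.1 - mult d (bar y.1))
    (fun y => hub _ ((hO _).1 y.2))
    (fun y => by
      change mult d (bar y.1) - mult d (bar (bar y.1)) = _
      rw [bar_bar]
      ring)
    (by
      intro Φ hhalf hdvd
      refine hΦ (Φ.map (Function.Embedding.subtype _)) (fun y hy => (hO y).1 (hsub Φ y hy)) ?_ ?_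
      · intro y hy
        have h1 := hmem Φ ⟨y, (hO y).2 hy⟩
        have h2 := hmem Φ (inv ⟨y, (hO y).2 hy⟩)
        have h3 := hhalf ⟨y, (hO y).2 hy⟩
        change y ∈ _ ↔ _ at h1
        change bar y ∈ _ ↔ _ at h2
        rw [h1, h2]
        exact h3
      · rw [Finset.sum_map]
        exact hdvd)
    (by
      intro g
      obtain ⟨σ, hσ⟩ := hGval g
      rw [← hrel σ]
      refine Finset.sum_congr rfl fun y _ => ?_
      rw [hσ])
    ⟨x, (hO x).2 ⟨1, rfl⟩⟩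
  have h9 : mult d x - mult d (bar x) = 0 := hfin
  linarith

/-- Eigenvalues of prime power degree over an imaginary quadratic field belong to regular blocks. -/
theorem regular_of_quadratic {x : ℂ} (hx : IsEigenvalue Z x) (h : IsOverQuadratic Z x) :
    IsInRegularBlock Z x := by
  obtain ⟨ℓ, k, B, u, hℓ, hxB, hsub, hhalf, hblock, hcard, hu, hsum, hflip⟩ := h
  have _ : Fact ℓ.Prime := ⟨hℓ⟩
  have heig : ∀ y ∈ B, IsEigenvalue Z y := by
    intro y hy
    obtain ⟨σ, rfl⟩ := hsub y hy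
    exact isEig_move σ hx
  let H : Subgroup (ℂ ≃+* ℂ) :=
    { carrier := {σ | ∀ y ∈ B, σ y ∈ B}
      mul_mem' := fun {a b} ha hb y hy => ha _ (hb y hy)
      one_mem' := fun y hy => hy
      inv_mem' := fun {a} ha => hblock a⁻¹ ⟨a x, ha x hxB, by
        have e : a⁻¹ (a x) = x := inv_smul_smul a x
        rw [e]
        exact hxB⟩ }
  have htr : ∀ y ∈ B, ∀ z ∈ B, ∃ σ ∈ H, σ • y = z := by
    intro y hy z hz
    obtain ⟨a, ha⟩ := hsub y hy
    obtain ⟨b, hb⟩ := hsub z hz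
    have e : (b * a⁻¹) • y = z := by
      have e1 : a • x = y := ha
      have e2 : b • x = z := hb
      rw [mul_smul, ← e1, inv_smul_smul, e2]
    refine ⟨b * a⁻¹, hblock _ ⟨y, hy, ?_⟩, e⟩
    change (b * a⁻¹) • y ∈ B
    rw [e]
    exact hz
  obtain ⟨P, hP1, hP2, hP3⟩ := exists_sylow (Γ := ℂ ≃+* ℂ)
    (X := ℂ) ℓ k B H (fun σ hσ => hσ) htr hcard
  refine ⟨ℓ, P, B, u, hxB, ⟨hℓ, heig, fun y hy => (hhalf y (hsub y hy)).1 hy, hP1, hP2, ?_⟩, hu,
    Or.inl ⟨hP3, 1, hsum⟩⟩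
  intro y hy z hz hne h1 h2
  exact flip_conj hx hflip (hsub y hy) hz hne fun h3 => h1 ((hhalf z h3).2 h2)

end

end Pool.Agent.V7H95.Fin
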