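import Pool.Agent.W495.FM.HomDefs
import Pool.Agent.V7H95.Fin.Blk

/-!
# Schemes over finite fields generated by abelian varieties with regular blocks: definitions
-/

set_option autoImplicit false

namespace Pool.Agent.V7H95.Fin

open Pool.Agent.W495.TA Pool.Agent.W495.FM

/-- Each Frobenius eigenvalue of `Z` is real (so its slope is `1 / 2`), or it belongs to a regular
block, or the number field generated by it has prime power degree over an imaginary quadratic field as
in `IsOverQuadratic`, or twice a prime power degree over `ℚ` as in `HasPrimePowerDegree`. -/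
def HasPureBlocks {p : ℕ} [Fact p.Prime] {ν : PadicAlgCl p ≃+* ℂ} (Z : RedAV p ν) : Prop :=
  ∀ x, IsEigenvalue Z x → bar x = x ∨ IsInRegularBlock Z x ∨ IsOverQuadratic Z x ∨
    HasPrimePowerDegree Z x

/-- The abelian variety `Y` is (over an algebraic closure) isogenous to a product of a supersingular
abelian variety and of powers of the factors of `Z`: for each factor of `Y`, a power of its Frobenius
endomorphism is a power of `p`, or an embedding of the CM fields takes a power of the Frobenius
endomorphism of a factor of `Z` to a power of it. -/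
def IsMadeOf {p : ℕ} [Fact p.Prime] {ν : PadicAlgCl p ≃+* ℂ} (Z Y : RedAV p ν) : Prop :=
  ∀ i : Y.X.I, (∃ s : ℕ, 0 < s ∧ (Y.π i) ^ (2 * s) = ((p : (Y.X.factor i).E) ^ Y.a) ^ s) ∨
    ∃ (k : Z.X.I) (ι : (Z.X.factor k).E →+* (Y.X.factor i).E) (s t : ℕ), 0 < s ∧ 0 < t ∧
      Y.a * s = Z.a * t ∧ (Y.π i) ^ s = ι ((Z.π k) ^ t)

/-- The groups of motivic and of `ℓ`-adic homology of `X` are those of an abelian variety `Y` which is
isogenous, over an algebraic closure, to a product of a supersingular abelian variety and of powers
of the factors of an abelian variety `Z` whose Frobenius eigenvalues belong to regular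
blocks (`HasPureBlocks`). -/
def IsBlockAbelian {Ω V : Type} [Field Ω] [CharZero Ω] (p : ℕ) [Fact p.Prime]
    (ν : PadicAlgCl p ≃+* ℂ) (T : Homology Ω V) (X : V) : Prop :=
  ∃ (Z Y : RedAV p ν) (C : Cycles Ω Y) (M : Motivic C) (g : ℕ), HasPureBlocks Z ∧
    IsMadeOf Z Y ∧ IsChow C ∧ IsMotivic M ∧ IsAbelian T X M g

end Pool.Agent.V7H95.Fin
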