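import Mathlib
import Pool.Agent.V7H95.Syl.Core

/-!
# Relations on blocks: the two steps of the proof of `block_zero`
-/

set_option linter.unusedSectionVars false
set_option linter.unusedVariables false

namespace Pool.Agent.V7H95.Fin

open MulAction Pool.Agent.V7H95.Syl

variable {Γ X : Type*} [Group Γ] [MulAction Γ X] {cb : X → X} {S : Set X}

/-- **A relation splits off its part on a block.** -/
theorem block_rel (hS : S.Finite) (hst : ∀ σ : Γ, ∀ x ∈ S, σ • x ∈ S) (hcbS : ∀ x ∈ S, cb x ∈ S)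
    (hcb : ∀ x ∈ S, cb (cb x) = x) (hcomm : ∀ σ : Γ, ∀ x ∈ S, σ • cb x = cb (σ • x))
    {W : X → ℤ} (hW : ∀ x ∈ S, W (cb x) = -W x) {c : X → ℤ} (hc : ∀ x ∈ S, c (cb x) = -c x)
    (hrel : ∀ σ : Γ, ∑ᶠ x ∈ S, c x * W (σ • x) = 0)
    (B : Finset X) (hBS : ∀ x ∈ B, x ∈ S) (hhalf : ∀ x ∈ B, cb x ∉ B)
    (hflip : ∀ x ∈ B, ∀ y ∈ S, y ∉ B → cb y ∉ B → Flip Γ cb x y) :
    ∀ σ : Γ, ∑ x ∈ B, c x * W (σ • x) = 0 := by
  classical
  -- the finite group
  let _ : MulAction Γ S :=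
    { smul := fun σ x => ⟨σ • x.1, hst σ x.1 x.2⟩
      one_smul := fun x => Subtype.ext (one_smul Γ x.1)
      mul_smul := fun a b x => Subtype.ext (mul_smul a b x.1) }
  have hval : ∀ (σ : Γ) (x : S), (σ • x).1 = σ • x.1 := fun _ _ => rfl
  have : Finite S := hS
  let _ : Fintype S := Fintype.ofFinite S
  let G : Subgroup (Equiv.Perm S) := (MulAction.toPermHom Γ S).range
  let _ : Fintype G := Fintype.ofFinite G
  have hGval : ∀ (g : G), ∃ σ : Γ, ∀ x : S, (g • x).1 = σ • x.1 := by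
    rintro ⟨g, σ, rfl⟩
    exact ⟨σ, fun x => rfl⟩
  have hGex : ∀ σ : Γ, ∃ g : G, ∀ x : S, (g • x).1 = σ • x.1 :=
    fun σ => ⟨⟨_, σ, rfl⟩, fun x => rfl⟩
  let cbS : S → S := fun x => ⟨cb x.1, hcbS x.1 x.2⟩
  -- the relation on the block
  intro σ
  obtain ⟨g, hg⟩ := hGex σ
  let C : Finset S := Finset.univ.filter fun x => x.1 ∈ B ∨ cb x.1 ∈ B
  have hsp := split (G := G) (Y := S) (cb := cbS) (W := fun x => W x.1) (c := fun x => c x.1)
    (by
      intro g y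
      obtain ⟨σ, hσ⟩ := hGval g
      apply Subtype.ext
      rw [hσ]
      change σ • cb y.1 = cb (g • y).1
      rw [hσ, hcomm σ y.1 y.2])
    (fun y => hW y.1 y.2)
    (by
      intro g
      obtain ⟨σ, hσ⟩ := hGval g
      have h1 := hrel σ
      rw [finsum_mem_eq_finite_toFinset_sum _ hS] at h1
      rw [← h1]
      refine Finset.sum_bij (fun x _ => x.1) ?_ ?_ ?_ ?_
      · intro x _
        exact hS.mem_toFinset.2 x.2
      · intro x _ y _ h
        exact Subtype.ext h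
      · intro x hx
        exact ⟨⟨x, hS.mem_toFinset.1 hx⟩, Finset.mem_univ _, rfl⟩
      · intro x _
        rw [hσ])
    C
    (by
      intro x hx y hy
      have hy1 : ¬ (y.1 ∈ B ∨ cb y.1 ∈ B) := fun h => hy (Finset.mem_filter.2 ⟨Finset.mem_univ _, h⟩)
      push Not at hy1
      have key : ∀ x : X, x ∈ B → Flip Γ cb x y.1 := fun x hx => hflip x hx y.1 y.2 hy1.1 hy1.2
      rcases (Finset.mem_filter.1 hx).2 with h | h
      · obtain ⟨τ, hτ⟩ := key _ h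
        obtain ⟨g, hg⟩ := hGex τ
        refine ⟨g, ?_⟩
        rcases hτ with ⟨h1, h2⟩ | ⟨h1, h2⟩ | ⟨h1, h2⟩
        · exact Or.inl ⟨Subtype.ext ((hg x).trans h1), Subtype.ext ((hg y).trans h2)⟩
        · exact Or.inr (Or.inl ⟨Subtype.ext ((hg x).trans h1), Subtype.ext ((hg y).trans h2)⟩)
        · exact Or.inr (Or.inr ⟨Subtype.ext ((hg x).trans h1), Subtype.ext ((hg y).trans h2)⟩)
      · obtain ⟨τ, hτ⟩ := key _ h
        have hxx : cb (cb x.1) = x.1 := hcb x.1 x.2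
        have hmov : ∀ τ : Γ, τ • x.1 = cb (τ • cb x.1) := by
          intro τ
          rw [← hcomm τ _ (hcbS _ x.2), hxx]
        rcases hτ with ⟨h1, h2⟩ | ⟨h1, h2⟩ | ⟨h1, h2⟩
        · obtain ⟨g, hg⟩ := hGex τ
          refine ⟨g, Or.inl ⟨Subtype.ext ((hg x).trans ?_), Subtype.ext ((hg y).trans h2)⟩⟩
          rw [hmov, h1, hxx]
        · obtain ⟨g, hg⟩ := hGex τ
          refine ⟨g, Or.inr (Or.inl ⟨Subtype.ext ((hg x).trans ?_),
            Subtype.ext ((hg y).trans h2)⟩)⟩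
          rw [hmov, h1, hxx]
        · -- `τ` maps `cb x` to `y` and `y` to `x`; its inverse maps `x` to `y`, `y` to `cb x`
          obtain ⟨g, hg⟩ := hGex τ⁻¹
          rw [hxx] at h2
          refine ⟨g, Or.inr (Or.inr ⟨Subtype.ext ((hg x).trans ?_),
            Subtype.ext ((hg y).trans ?_)⟩)⟩
          · rw [inv_smul_eq_iff]
            exact h2.symm
          · rw [inv_smul_eq_iff]
            exact h1.symm) g
  -- sum over the class is twice the sum over the block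
  have h2 : ∑ x ∈ C, c x.1 * W (g • x).1 = 2 * ∑ x ∈ B, c x * W (σ • x) := by
    have e1 : ∑ x ∈ C, c x.1 * W (g • x).1 = ∑ x ∈ C.filter (fun x => x.1 ∈ B), c x.1 * W (g • x).1 +
        ∑ x ∈ C.filter (fun x => ¬ x.1 ∈ B), c x.1 * W (g • x).1 :=
      (Finset.sum_filter_add_sum_filter_not C _ _).symm
    have e2 : ∑ x ∈ C.filter (fun x => x.1 ∈ B), c x.1 * W (g • x).1 =
        ∑ x ∈ B, c x * W (σ • x) := by
      refine Finset.sum_bij (fun x _ => x.1) ?_ ?_ ?_ ?_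
      · intro x hx
        exact (Finset.mem_filter.1 hx).2
      · intro x _ y _ h
        exact Subtype.ext h
      · intro x hx
        exact ⟨⟨x, hBS x hx⟩, Finset.mem_filter.2 ⟨Finset.mem_filter.2 ⟨Finset.mem_univ _,
          Or.inl hx⟩, hx⟩, rfl⟩
      · intro x _
        rw [hg]
    have e3 : ∑ x ∈ C.filter (fun x => ¬ x.1 ∈ B), c x.1 * W (g • x).1 =
        ∑ x ∈ B, c x * W (σ • x) := by
      refine Finset.sum_bij (fun x _ => cb x.1) ?_ ?_ ?_ ?_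
      · intro x hx
        rw [Finset.mem_filter, Finset.mem_filter] at hx
        exact hx.1.2.resolve_left hx.2
      · intro x _ y _ h
        apply Subtype.ext
        rw [← hcb x.1 x.2, ← hcb y.1 y.2, h]
      · intro x hx
        refine ⟨⟨cb x, hcbS x (hBS x hx)⟩, Finset.mem_filter.2 ⟨Finset.mem_filter.2
          ⟨Finset.mem_univ _, Or.inr ?_⟩, hhalf x hx⟩, hcb x (hBS x hx)⟩
        change cb (cb x) ∈ B
        rw [hcb x (hBS x hx)]
        exact hx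
      · intro x _
        rw [hg, hc x.1 x.2, hcomm σ x.1 x.2, hW _ (hst σ x.1 x.2)]
        ring
    rw [e1, e2, e3]
    ring
  have h3 : ∑ x ∈ C, c x.1 * W (g • x).1 = 0 := hsp
  omega

/-- **A relation on a block modulo a prime number.** -/
theorem block_mod {W : X → ℤ} {c : X → ℤ} (B : Finset X)
    (ℓ : ℕ) [Fact ℓ.Prime] (P : Subgroup Γ) (hPB : ∀ σ ∈ P, ∀ x ∈ B, σ • x ∈ B)
    (hP : ∀ σ ∈ P, ∃ n : ℕ, ∀ x ∈ B, σ ^ ℓ ^ n • x = x)
    (hcrit : ∀ t : X → ZMod ℓ, (∀ σ ∈ P, ∀ x ∈ B, t (σ • x) = t x) →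
      (∀ σ : Γ, ∑ x ∈ B, t x * ((W (σ • x) : ℤ) : ZMod ℓ) = 0) → ∀ x ∈ B, t x = 0)
    (hB2 : ∀ σ : Γ, ∑ x ∈ B, c x * W (σ • x) = 0) :
    ∀ x ∈ B, c x = 0 := by
  classical
  -- reduction modulo `ℓ`
  by_contra hcon
  push Not at hcon
  obtain ⟨x₀, hx₀, hcx₀⟩ := hcon
  obtain ⟨c', hc1, hc2⟩ := Finset.extract_gcd (s := B) c ⟨x₀, hx₀⟩
  obtain ⟨d, hd⟩ : ∃ d, d = B.gcd c := ⟨_, rfl⟩
  rw [← hd] at hc1
  have hd0 : d ≠ 0 := by
    intro h
    apply hcx₀
    rw [hc1 x₀ hx₀, h, zero_mul]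
  have hrel' : ∀ σ : Γ, ∑ x ∈ B, c' x * W (σ • x) = 0 := by
    intro σ
    apply mul_left_cancel₀ hd0
    rw [mul_zero, Finset.mul_sum, ← hB2 σ]
    refine Finset.sum_congr rfl fun x hx => ?_
    rw [hc1 x hx]
    ring
  have hnd : ∃ x ∈ B, ¬ (ℓ : ℤ) ∣ c' x := by
    by_contra hall
    push Not at hall
    have h1 : (ℓ : ℤ) ∣ B.gcd c' := Finset.dvd_gcd hall
    rw [hc2] at h1
    have h2 := Int.isUnit_iff_natAbs_eq.1 (isUnit_of_dvd_one h1)
    simp only [Int.natAbs_natCast] at h2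
    exact (Fact.out : ℓ.Prime).one_lt.ne' h2
  let U : AddSubgroup (B → ZMod ℓ) :=
    { carrier := {u | ∀ σ : Γ, ∑ x : B, u x * ((W (σ • x.1) : ℤ) : ZMod ℓ) = 0}
      zero_mem' := fun σ => by simp
      add_mem' := by
        intro a b ha hb σ
        simp only [Pi.add_apply, add_mul, Finset.sum_add_distrib, ha σ, hb σ, add_zero]
      neg_mem' := by
        intro a ha σ
        simp only [Pi.neg_apply, neg_mul, Finset.sum_neg_distrib, ha σ, neg_zero] }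
  have hUmem : ∀ u : B → ZMod ℓ, u ∈ U ↔
      ∀ σ : Γ, ∑ x : B, u x * ((W (σ • x.1) : ℤ) : ZMod ℓ) = 0 := fun u => Iff.rfl
  obtain ⟨u, hu, hu0, hufix⟩ := exists_fixed ℓ B P hPB hP U (by
    intro σ hσ u hu
    rw [hUmem] at hu ⊢
    intro τ
    rw [← hu (τ * σ⁻¹)]
    let e : B ≃ B :=
      { toFun := fun x => ⟨σ • x.1, hPB σ hσ x.1 x.2⟩
        invFun := fun x => ⟨σ⁻¹ • x.1, hPB σ⁻¹ (P.inv_mem hσ) x.1 x.2⟩
        left_inv := fun x => Subtype.ext (inv_smul_smul σ x.1)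
        right_inv := fun x => Subtype.ext (smul_inv_smul σ x.1) }
    refine Fintype.sum_equiv e _ _ fun x => ?_
    change u ⟨σ • x.1, _⟩ * ((W (τ • x.1) : ℤ) : ZMod ℓ) =
      u ⟨σ • x.1, _⟩ * ((W ((τ * σ⁻¹) • σ • x.1) : ℤ) : ZMod ℓ)
    rw [mul_smul, inv_smul_smul]) (by
    refine ⟨fun x => ((c' x.1 : ℤ) : ZMod ℓ), ?_, ?_⟩
    · rw [hUmem]
      intro σ
      have h1 := congrArg (fun n : ℤ => (n : ZMod ℓ)) (hrel' σ)
      simp only [Int.cast_sum, Int.cast_mul, Int.cast_zero] at h1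
      rw [← h1, ← Finset.sum_coe_sort B]
    · intro h
      obtain ⟨x, hx, hx'⟩ := hnd
      apply hx'
      have h1 := congrFun h ⟨x, hx⟩
      exact (ZMod.intCast_zmod_eq_zero_iff_dvd _ _).1 h1)
  apply hu0
  obtain ⟨t, ht⟩ : ∃ t : X → ZMod ℓ, ∀ x : B, t x.1 = u x := by
    refine ⟨fun x => if h : x ∈ B then u ⟨x, h⟩ else 0, fun x => ?_⟩
    simp only
    rw [dif_pos x.2]
  have h1 := hcrit t (by
    intro σ hσ x hx
    have e := hufix σ hσ ⟨x, hx⟩
    rw [← ht, ← ht] at e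
    exact e) (by
    intro σ
    have e := (hUmem u).1 hu σ
    rw [← e, ← Finset.sum_coe_sort B]
    exact Finset.sum_congr rfl fun x _ => by rw [ht])
  funext x
  rw [← ht x]
  exact h1 x.1 x.2


end Pool.Agent.V7H95.Fin
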